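import Mathlib
import Pool.Agent.Run7.h545.HP.Fin

/-!
# A positive proportion of the constant terms at a positive proportion of any set of lengths (project HP)
-/

set_option autoImplicit false

namespace Run7.h545.EP

open Finset Filter Topology
open Pool.Agent.N792
open Run7.h545.HP (GoodC)

/-- double counting -/
theorem dc {ι κ : Type*} (A : Finset ι) (T : Finset κ) (R : ι → κ → Prop) [∀ i k, Decidable (R i k)] (c X : ℝ)
    (hc : 0 < c) (hA : (#A : ℝ) ≤ X) (hT : T.Nonempty) (h : ∀ k ∈ T, c * X ≤ (#(A.filter (fun i => R i k)) : ℝ)) :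
    c / 2 * X ≤ (#(A.filter (fun i => c / 2 * #T ≤ (#(T.filter (fun k => R i k)) : ℝ))) : ℝ) := by
  obtain ⟨G, hG⟩ : ∃ G : Finset ι, G = A.filter (fun i => c / 2 * #T ≤ (#(T.filter (fun k => R i k)) : ℝ)) := ⟨_, rfl⟩
  rw [← hG]
  have h1 : ∑ k ∈ T, (#(A.filter (fun i => R i k)) : ℝ) = ∑ i ∈ A, (#(T.filter (fun k => R i k)) : ℝ) := by
    have e1 : ∀ k, (#(A.filter (fun i => R i k)) : ℝ) = ∑ i ∈ A, (if R i k then (1 : ℝ) else 0) := by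
      intro k
      rw [sum_boole]
    have e2 : ∀ i, (#(T.filter (fun k => R i k)) : ℝ) = ∑ k ∈ T, (if R i k then (1 : ℝ) else 0) := by
      intro i
      rw [sum_boole]
    simp only [e1, e2]
    exact sum_comm
  have h2 : (#T : ℝ) * (c * X) ≤ ∑ i ∈ A, (#(T.filter (fun k => R i k)) : ℝ) := by
    rw [← h1, ← nsmul_eq_mul, ← sum_const]
    exact sum_le_sum fun k hk => h k hk
  have hTp : (0 : ℝ) < #T := by exact_mod_cast card_pos.2 hT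
  have h3 : ∑ i ∈ A, (#(T.filter (fun k => R i k)) : ℝ) ≤ #G * #T + #A * (c / 2 * #T) := by
    have h4 : ∀ i ∈ A, (#(T.filter (fun k => R i k)) : ℝ) ≤
        (if c / 2 * #T ≤ (#(T.filter (fun k => R i k)) : ℝ) then (#T : ℝ) else 0) + c / 2 * #T := by
      intro i _
      by_cases hi : c / 2 * #T ≤ (#(T.filter (fun k => R i k)) : ℝ)
      · rw [if_pos hi]
        have h5 : (#(T.filter (fun k => R i k)) : ℝ) ≤ #T := by exact_mod_cast card_filter_le _ _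
        have : 0 ≤ c / 2 * #T := by positivity
        linarith
      · rw [if_neg hi, zero_add]
        push Not at hi
        exact hi.le
    refine (sum_le_sum h4).trans ?_
    rw [sum_add_distrib, sum_const, nsmul_eq_mul, ← sum_filter, sum_const, nsmul_eq_mul, ← hG]
  have h4 : (#A : ℝ) * (c / 2 * #T) ≤ X * (c / 2 * #T) := by gcongr
  have h6 : (#T : ℝ) * (c / 2 * X) ≤ #T * #G := by nlinarith
  exact le_of_mul_le_mul_left h6 hTp

open Classical in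
/-- for one length, in terms of `X` -/
theorem one (a : ℤ) (ha : 0 < a) (Λ : ℝ) (hΛ : 1 ≤ Λ) (η : ℝ) (hη : 0 < η) (hη1 : η ≤ 1 / 2) :
    ∃ δ : ℝ, 0 < δ ∧ ∀ ε : ℝ, 0 < ε → ∃ X0 : ℕ, ∀ X : ℕ, X0 ≤ X → ∀ b : ℤ, (b : ℝ) ^ 2 ≤ Λ * X → ∀ N : ℕ,
      (X : ℝ) ^ (10 / 9 : ℝ) ≤ N → (N : ℝ) ≤ (X : ℝ) ^ (2 - ε) →
      δ * X ≤ (#((Icc 1 X).filter (fun c => GoodC a b η N c)) : ℝ) := by
  obtain ⟨c, hc, hfam⟩ := Run7.h545.HP.family a ha Λ hΛ η hη hη1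
  refine ⟨c, hc, fun ε hε => ?_⟩
  obtain ⟨ε1, hε1⟩ : ∃ ε1 : ℝ, ε1 = min ε 1 := ⟨_, rfl⟩
  have hε10 : 0 < ε1 := by rw [hε1]; exact lt_min hε one_pos
  have hε11 : ε1 ≤ 1 := by rw [hε1]; exact min_le_right _ _
  have hε12 : ε1 ≤ ε := by rw [hε1]; exact min_le_left _ _
  obtain ⟨N0, hfam⟩ := hfam (ε1 / 8) (by positivity)
  refine ⟨N0 + 3, fun X hX b hb N hNX hNX2 => ?_⟩
  have hXR : (3 : ℝ) ≤ X := by exact_mod_cast (by omega : 3 ≤ X)
  have hX0 : (0 : ℝ) < X := by linarith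
  have hXN : X ≤ N := by
    have h1 : (X : ℝ) ≤ (X : ℝ) ^ (10 / 9 : ℝ) := by
      nth_rewrite 1 [← Real.rpow_one (X : ℝ)]
      exact Real.rpow_le_rpow_of_exponent_le (by linarith) (by norm_num)
    exact_mod_cast h1.trans hNX
  have hXNr : (X : ℝ) ≤ N := by exact_mod_cast hXN
  have hN0' : (0 : ℝ) < N := by linarith
  have hup : (X : ℝ) ≤ (N : ℝ) ^ (9 / 10 : ℝ) := by
    have h1 : ((X : ℝ) ^ (10 / 9 : ℝ)) ^ (9 / 10 : ℝ) ≤ (N : ℝ) ^ (9 / 10 : ℝ) :=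
      Real.rpow_le_rpow (by positivity) hNX (by norm_num)
    rw [← Real.rpow_mul hX0.le] at h1
    norm_num at h1
    exact h1
  have hlo : (N : ℝ) ^ (1 / 2 + ε1 / 8) ≤ X := by
    have h1 : (N : ℝ) ≤ (X : ℝ) ^ (2 - ε1) :=
      hNX2.trans (Real.rpow_le_rpow_of_exponent_le (by linarith) (by linarith))
    have h2 : (N : ℝ) ^ (1 / 2 + ε1 / 8) ≤ ((X : ℝ) ^ (2 - ε1)) ^ (1 / 2 + ε1 / 8) :=
      Real.rpow_le_rpow hN0'.le h1 (by positivity)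
    rw [← Real.rpow_mul hX0.le] at h2
    refine h2.trans ?_
    nth_rewrite 2 [← Real.rpow_one (X : ℝ)]
    apply Real.rpow_le_rpow_of_exponent_le (by linarith)
    nlinarith
  exact hfam N (by omega) b X hb hlo hup

open Classical in
/-- for a set of lengths at once -/
theorem many (a : ℤ) (ha : 0 < a) (Λ : ℝ) (hΛ : 1 ≤ Λ) (η : ℝ) (hη : 0 < η) (hη1 : η ≤ 1 / 2) :
    ∃ δ : ℝ, 0 < δ ∧ ∀ ε : ℝ, 0 < ε → ∃ X0 : ℕ, ∀ X : ℕ, X0 ≤ X → ∀ b : ℤ, (b : ℝ) ^ 2 ≤ Λ * X →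
      ∀ T : Finset ℕ, T.Nonempty → (∀ N ∈ T, (X : ℝ) ^ (10 / 9 : ℝ) ≤ N ∧ (N : ℝ) ≤ (X : ℝ) ^ (2 - ε)) →
      δ * X ≤ (#((Icc 1 X).filter (fun c : ℕ => δ * #T ≤ (#(T.filter (fun N => GoodC a b η N c)) : ℝ))) : ℝ) := by
  obtain ⟨c, hc, h⟩ := one a ha Λ hΛ η hη hη1
  refine ⟨c / 2, by positivity, fun ε hε => ?_⟩
  obtain ⟨X0, hX0⟩ := h ε hε
  refine ⟨X0, fun X hX b hb T hT0 hT => ?_⟩
  apply dc (Icc 1 X) T (fun c N => GoodC a b η N c) c X hc ?_ hT0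
  · intro N hN
    exact hX0 X hX b hb N (hT N hN).1 (hT N hN).2
  · rw [Nat.card_Icc, Nat.add_sub_cancel]

/-- the prime number theorem is not needed: `π(N) ≤ (1 + θ) N / log N`; here only `N / log N` occurs -/
lemma GoodC.adm {a b : ℤ} {η : ℝ} {N c : ℕ} (h : GoodC a b η N c) : Admissible a b c := h.1

end Run7.h545.EP
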