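import Mathlib
import Pool.Agent.Run7.h545.EP.Gen
import Pool.Agent.N792.T9P

/-!
# The primes `n² - k` for a positive proportion of `k`
-/

set_option autoImplicit false

namespace Run7.h545.EP.Neg

open Finset Filter Topology
open Pool.Agent.N792
open Run7.h545.HP (GoodC)

/-- the number of the `2 ≤ n ≤ N` with `n² - k` prime -/
def P (k N : ℕ) : ℕ := #((Icc 2 N).filter (fun n : ℕ => ((n : ℤ) ^ 2 - k).toNat.Prime))

/-- the partial products -/
noncomputable def Cy (k y : ℕ) : ℝ :=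
  ∏ p ∈ (Icc 3 y).filter Nat.Prime, (1 - (jacobiSym (k : ℤ) p : ℝ) / ((p : ℝ) - 1))

/-- the lower bound -/
def LB (η : ℝ) (k N : ℕ) : Prop :=
  ∃ S : ℝ, 0 < S ∧ Tendsto (fun y => Cy k y) atTop (𝓝 S) ∧
    (1 - η) * (1 / 2 * S * ∫ t in (2 : ℝ)..(N : ℝ), 1 / Real.log t) ≤ P k N

lemma partialC_eq (k c y t : ℕ) (h : c + k = t ^ 2) : partialC 1 (2 * t) (c : ℤ) y = Cy k y := by
  unfold partialC Cy
  have h1 : (Icc 3 y).filter (fun p : ℕ => p.Prime ∧ ¬ (p : ℤ) ∣ 1) = (Icc 3 y).filter Nat.Prime := by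
    ext p
    simp only [mem_filter, mem_Icc]
    constructor
    · intro h
      exact ⟨h.1, h.2.1⟩
    · intro h
      refine ⟨h.1, h.2, fun hd => ?_⟩
      have h2 := Int.eq_one_of_dvd_one (Int.natCast_nonneg p) hd
      have h3 : p = 1 := by exact_mod_cast h2
      exact h.2.one_lt.ne' h3
  rw [h1]
  refine prod_congr rfl fun p hp => ?_
  rw [mem_filter, mem_Icc] at hp
  have h2 : ((2 * (t : ℤ)) ^ 2 - 4 * 1 * (c : ℤ)) = 2 ^ 2 * (k : ℤ) := by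
    have : (c : ℤ) + k = (t : ℤ) ^ 2 := by exact_mod_cast h
    linear_combination -4 * this
  have h3 : jacobiSym (2 ^ 2 * (k : ℤ)) p = jacobiSym (k : ℤ) p := by
    rw [jacobiSym.mul_left, jacobiSym.sq_one', one_mul]
    have : Nat.Coprime 2 p := by
      rw [Nat.coprime_primes Nat.prime_two hp.2]
      omega
    change Nat.gcd (2 : ℤ).natAbs (p : ℤ).natAbs = 1
    rw [Int.natAbs_natCast]
    exact this
  rw [h2, h3]

lemma eps_eq (t : ℕ) : eps 1 (2 * t) = 1 := by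
  unfold eps
  rw [if_neg]
  omega

lemma gcdProd_eq (t : ℕ) : gcdProd 1 (2 * t) = 1 := by
  unfold gcdProd
  simp


/-- elementary -/
lemma N_large (t N : ℕ) (θ : ℝ) (hθ : 0 < θ) (hθ1 : θ ≤ 1 / 2) (ht : (t : ℝ) ≤ θ * N) (hN : 8 ≤ N) :
    (1 - θ) * ((N : ℝ) / Real.log N) ≤ ((N - t : ℕ) : ℝ) / Real.log ((N - t : ℕ) : ℝ) := by
  have hNR : (8 : ℝ) ≤ N := by exact_mod_cast hN
  have htN : t ≤ N := by
    have h1 : (t : ℝ) ≤ N := by nlinarith
    exact_mod_cast h1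
  have h1 : ((N - t : ℕ) : ℝ) = N - t := by rw [Nat.cast_sub htN]
  rw [h1]
  have h2 : (1 - θ) * (N : ℝ) ≤ N - t := by linarith
  have h3 : (4 : ℝ) ≤ N - t := by nlinarith
  have h4 : 0 < Real.log (N - t : ℝ) := Real.log_pos (by linarith)
  have ht0 : (0 : ℝ) ≤ t := Nat.cast_nonneg _
  have h5 : Real.log (N - t : ℝ) ≤ Real.log N := Real.log_le_log (by linarith) (by linarith)
  calc (1 - θ) * ((N : ℝ) / Real.log N) = ((1 - θ) * N) / Real.log N := by ring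
    _ ≤ ((N : ℝ) - t) / Real.log N := by
        apply div_le_div_of_nonneg_right h2 (by linarith)
    _ ≤ ((N : ℝ) - t) / Real.log (N - t : ℝ) := by
        apply div_le_div_of_nonneg_left (by linarith) h4 h5

/-- transfer -/
lemma lb_of (η : ℝ) (hη : 0 < η) (hη1 : η ≤ 1) : ∃ N0 : ℕ, ∀ N : ℕ, N0 ≤ N → ∀ t c k : ℕ, 1 ≤ t →
    (t : ℝ) ≤ η / 8 * N → c + k = t ^ 2 → GoodC 1 (2 * t) (η / 2) (N - t) c → LB η k N := by
  obtain ⟨N0, hN0⟩ := eventually_atTop.1 (li_upper (η / 8) (by positivity))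
  refine ⟨N0 + 8, fun N hN t c k ht1 ht hck hg => ?_⟩
  obtain ⟨-, S, hS0, hS1, hS2⟩ := hg
  have hNR : (8 : ℝ) ≤ N := by exact_mod_cast (by omega : 8 ≤ N)
  have hlog : 0 < Real.log N := Real.log_pos (by linarith)
  have htN : t ≤ N := by
    have h1 : (t : ℝ) ≤ N := by nlinarith
    exact_mod_cast h1
  refine ⟨S, hS0, ?_, ?_⟩
  · refine hS1.congr fun y => ?_
    exact partialC_eq k c y t hck
  · have h1 := hN0 N (by omega)
    rw [eps_eq, gcdProd_eq] at hS2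
    have e0 : (Run7.h545.HP.PP 1 (2 * t) (c : ℤ) (N - t) : ℝ) ≤ P k N := by
      have : Run7.h545.HP.PP 1 (2 * t) (c : ℤ) (N - t) ≤ P k N := by
        unfold Run7.h545.HP.PP P
        apply card_le_card_of_injOn (fun n => n + t)
        · intro n hn
          rw [Finset.mem_coe, mem_filter, mem_Icc] at hn
          rw [Finset.mem_coe, mem_filter, mem_Icc]
          beta_reduce
          refine ⟨by omega, ?_⟩
          have h2 : ((n + t : ℕ) : ℤ) ^ 2 - (k : ℤ) = fv 1 (2 * t) (c : ℤ) n := by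
            unfold fv
            have : (c : ℤ) + k = (t : ℤ) ^ 2 := by exact_mod_cast hck
            push_cast
            linear_combination (-1 : ℤ) * this
          rw [h2]
          exact hn.2
        · intro x _ y _ hxy
          simp only at hxy
          omega
      exact_mod_cast this
    refine le_trans ?_ (hS2.trans e0)
    have h2 := N_large t N (η / 8) (by positivity) (by linarith) ht (by omega)
    have hX : 0 ≤ (N : ℝ) / Real.log N := by positivity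
    have e1 : (1 - η / 2) * (1 * S * 1) * (((N - t : ℕ) : ℝ) / (2 * Real.log ((N - t : ℕ) : ℝ))) =
        (1 - η / 2) * (1 / 2 * S * (((N - t : ℕ) : ℝ) / Real.log ((N - t : ℕ) : ℝ))) := by
      rw [div_mul_eq_div_div]
      ring
    rw [e1]
    have hη2 : 0 ≤ 1 - η := by linarith
    have hη3 : 0 ≤ 1 - η / 2 := by linarith
    have h5 : (1 - η) * (1 + η / 8) ≤ (1 - η / 2) * (1 - η / 8) := by nlinarith
    calc (1 - η) * (1 / 2 * S * ∫ t in (2 : ℝ)..(N : ℝ), 1 / Real.log t)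
        ≤ (1 - η) * (1 / 2 * S * ((1 + η / 8) * (N / Real.log N))) := by gcongr
      _ = ((1 - η) * (1 + η / 8)) * (1 / 2 * S * (N / Real.log N)) := by ring
      _ ≤ ((1 - η / 2) * (1 - η / 8)) * (1 / 2 * S * (N / Real.log N)) := by gcongr
      _ = (1 - η / 2) * (1 / 2 * S * ((1 - η / 8) * (N / Real.log N))) := by ring
      _ ≤ _ := by gcongr

lemma LB.mono {η η' : ℝ} {k N : ℕ} (hN : 2 ≤ N) (h : η' ≤ η) (hg : LB η' k N) : LB η k N := by
  obtain ⟨S, h1, h2, h3⟩ := hg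
  refine ⟨S, h1, h2, le_trans ?_ h3⟩
  apply mul_le_mul_of_nonneg_right (by linarith)
  have : 0 ≤ ∫ t in (2 : ℝ)..(N : ℝ), 1 / Real.log t := by
    apply intervalIntegral.integral_nonneg (by exact_mod_cast hN)
    intro x hx
    have : 0 ≤ Real.log x := Real.log_nonneg (by linarith [hx.1])
    positivity
  positivity

/-- the real inequalities for the ranges -/
lemma ranges (ε η : ℝ) (hε : 0 < ε) (hε1 : ε ≤ 1) (hη : 0 < η) : ∃ K0 : ℕ, ∀ K : ℕ, K0 ≤ K → ∀ t : ℕ, t = Nat.sqrt K →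
    1 ≤ t ∧ (K : ℝ) / 2 ≤ (t : ℝ) ^ 2 ∧ ∀ N : ℕ, (K : ℝ) ^ (9 / 8 : ℝ) ≤ N → (N : ℝ) ≤ (K : ℝ) ^ (2 - ε) →
      (t : ℝ) ≤ η * N ∧ (((t ^ 2 : ℕ) : ℝ)) ^ (10 / 9 : ℝ) ≤ ((N - t : ℕ) : ℝ) ∧
        ((N - t : ℕ) : ℝ) ≤ (((t ^ 2 : ℕ) : ℝ)) ^ (2 - ε / 2) := by
  have hev : ∀ᶠ K : ℕ in atTop, (4 : ℝ) ≤ ((K : ℝ) / 2) ^ (ε / 2) ∧ (2 : ℝ) ≤ (K : ℝ) ^ (1 / 72 : ℝ) ∧
      1 / η ≤ (K : ℝ) ^ (1 / 8 : ℝ) := by
    have t0 : Tendsto (fun K : ℕ => (K : ℝ)) atTop atTop := tendsto_natCast_atTop_atTop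
    have t1 : Tendsto (fun K : ℕ => ((K : ℝ) / 2) ^ (ε / 2)) atTop atTop :=
      (tendsto_rpow_atTop (by positivity)).comp (t0.atTop_div_const (by norm_num))
    have t2 : Tendsto (fun K : ℕ => (K : ℝ) ^ (1 / 72 : ℝ)) atTop atTop :=
      (tendsto_rpow_atTop (by norm_num)).comp t0
    have t3 : Tendsto (fun K : ℕ => (K : ℝ) ^ (1 / 8 : ℝ)) atTop atTop :=
      (tendsto_rpow_atTop (by norm_num)).comp t0
    filter_upwards [t1.eventually_ge_atTop 4, t2.eventually_ge_atTop 2, t3.eventually_ge_atTop (1 / η)] with K h1 h2 h3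
    exact ⟨h1, h2, h3⟩
  obtain ⟨K1, hK1⟩ := eventually_atTop.1 hev
  refine ⟨K1 + 64, fun K hK t ht => ?_⟩
  obtain ⟨g1, g2, g3⟩ := hK1 K (by omega)
  have hKR : (64 : ℝ) ≤ K := by exact_mod_cast (by omega : 64 ≤ K)
  have hK0 : (0 : ℝ) < K := by linarith
  have ht1 : t ^ 2 ≤ K := by rw [ht]; exact Nat.sqrt_le' K
  have ht2 : K < (t + 1) ^ 2 := by rw [ht]; exact Nat.lt_succ_sqrt' K
  have ht8 : 8 ≤ t := by
    by_contra hcon
    push Not at hcon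
    have : (t + 1) ^ 2 ≤ 8 ^ 2 := Nat.pow_le_pow_left (by omega) 2
    omega
  have htR : (8 : ℝ) ≤ t := by exact_mod_cast ht8
  have ht1R : (t : ℝ) ^ 2 ≤ K := by exact_mod_cast ht1
  have ht2R : (K : ℝ) < ((t : ℝ) + 1) ^ 2 := by exact_mod_cast ht2
  have hhalf : (K : ℝ) / 2 ≤ (t : ℝ) ^ 2 := by nlinarith
  refine ⟨by omega, hhalf, fun N hN1 hN2 => ?_⟩
  have e98 : (K : ℝ) ^ (9 / 8 : ℝ) = K * (K : ℝ) ^ (1 / 8 : ℝ) := by
    rw [← Real.rpow_one_add' hK0.le (by norm_num)]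
    norm_num
  have htK : (t : ℝ) ≤ K := by nlinarith
  have h18 : (2 : ℝ) ≤ (K : ℝ) ^ (1 / 8 : ℝ) := by
    refine g2.trans ?_
    exact Real.rpow_le_rpow_of_exponent_le (by linarith) (by norm_num)
  have htN : (t : ℝ) ≤ N := by nlinarith
  have htN' : t ≤ N := by exact_mod_cast htN
  have hcast : ((N - t : ℕ) : ℝ) = N - t := by rw [Nat.cast_sub htN']
  refine ⟨?_, ?_, ?_⟩
  · have h1 : 1 / η * K ≤ N := by
      calc 1 / η * K ≤ (K : ℝ) ^ (1 / 8 : ℝ) * K := by gcongr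
        _ = (K : ℝ) ^ (9 / 8 : ℝ) := by rw [e98]; ring
        _ ≤ N := hN1
    have h2 : (K : ℝ) ≤ η * N := by
      have h3 := mul_le_mul_of_nonneg_left h1 hη.le
      calc (K : ℝ) = η * (1 / η * K) := by field_simp
        _ ≤ _ := h3
    linarith
  · rw [hcast]
    push_cast
    have h1 : ((t : ℝ) ^ 2) ^ (10 / 9 : ℝ) ≤ (K : ℝ) ^ (10 / 9 : ℝ) := Real.rpow_le_rpow (by positivity) ht1R (by norm_num)
    have h2 : 2 * (K : ℝ) ^ (10 / 9 : ℝ) ≤ (K : ℝ) ^ (9 / 8 : ℝ) := by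
      have h3 : (K : ℝ) ^ (9 / 8 : ℝ) = (K : ℝ) ^ (1 / 72 : ℝ) * (K : ℝ) ^ (10 / 9 : ℝ) := by
        rw [← Real.rpow_add hK0]
        norm_num
      rw [h3]
      gcongr
    have h4 : (t : ℝ) ≤ (K : ℝ) ^ (10 / 9 : ℝ) := by
      have h5 : (K : ℝ) ^ (1 : ℝ) ≤ (K : ℝ) ^ (10 / 9 : ℝ) := Real.rpow_le_rpow_of_exponent_le (by linarith) (by norm_num)
      rw [Real.rpow_one] at h5
      linarith
    linarith
  · rw [hcast]
    push_cast
    have ht0 : (0 : ℝ) ≤ t := by linarith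
    have hKt : (K : ℝ) ≤ 2 * (t : ℝ) ^ 2 := by linarith
    have hY : (0 : ℝ) < (t : ℝ) ^ 2 := by positivity
    have h1 : (K : ℝ) ^ (2 - ε) ≤ (2 * (t : ℝ) ^ 2) ^ (2 - ε) := Real.rpow_le_rpow hK0.le hKt (by linarith)
    have h2 : (2 * (t : ℝ) ^ 2) ^ (2 - ε) ≤ 4 * ((t : ℝ) ^ 2) ^ (2 - ε) := by
      rw [Real.mul_rpow (by norm_num) hY.le]
      have h3 : (2 : ℝ) ^ (2 - ε) ≤ (2 : ℝ) ^ (2 : ℝ) := Real.rpow_le_rpow_of_exponent_le (by norm_num) (by linarith)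
      have h4 : (2 : ℝ) ^ (2 : ℝ) = 4 := by norm_num
      rw [h4] at h3
      gcongr
    have h3 : 4 * ((t : ℝ) ^ 2) ^ (2 - ε) ≤ ((t : ℝ) ^ 2) ^ (2 - ε / 2) := by
      have h4 : ((t : ℝ) ^ 2) ^ (2 - ε / 2) = ((t : ℝ) ^ 2) ^ (ε / 2) * ((t : ℝ) ^ 2) ^ (2 - ε) := by
        rw [← Real.rpow_add hY]
        congr 1
        ring
      rw [h4]
      have h5 : (4 : ℝ) ≤ ((t : ℝ) ^ 2) ^ (ε / 2) := g1.trans (Real.rpow_le_rpow (by linarith) hhalf (by positivity))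
      gcongr
    linarith

open Classical in
theorem main (η : ℝ) (hη : 0 < η) :
    ∃ δ : ℝ, 0 < δ ∧ ∀ ε : ℝ, 0 < ε → ∃ K0 : ℕ, ∀ K : ℕ, K0 ≤ K →
      ∀ T : Finset ℕ, T.Nonempty → (∀ N ∈ T, (K : ℝ) ^ (9 / 8 : ℝ) ≤ N ∧ (N : ℝ) ≤ (K : ℝ) ^ (2 - ε)) →
      δ * K ≤ (#((Icc 1 K).filter (fun k : ℕ => δ * #T ≤ (#(T.filter (fun N => LB η k N)) : ℝ))) : ℝ) := by
  obtain ⟨η', hη'⟩ : ∃ η' : ℝ, η' = min η 1 := ⟨_, rfl⟩
  have hη0 : 0 < η' := by rw [hη']; exact lt_min hη one_pos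
  have hη1 : η' ≤ 1 := by rw [hη']; exact min_le_right _ _
  have hη2 : η' ≤ η := by rw [hη']; exact min_le_left _ _
  obtain ⟨N1, hN1⟩ := lb_of η' hη0 hη1
  obtain ⟨δ, hδ, hm⟩ := Run7.h545.EP.many 1 one_pos 4 (by norm_num) (η' / 2) (by positivity) (by linarith)
  refine ⟨min δ 1 / 4, by positivity, fun ε hε => ?_⟩
  obtain ⟨ε1, hε1⟩ : ∃ ε1 : ℝ, ε1 = min ε 1 := ⟨_, rfl⟩
  have hε10 : 0 < ε1 := by rw [hε1]; exact lt_min hε one_pos
  have hε11 : ε1 ≤ 1 := by rw [hε1]; exact min_le_right _ _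
  have hε12 : ε1 ≤ ε := by rw [hε1]; exact min_le_left _ _
  obtain ⟨X0, hX0⟩ := hm (ε1 / 2) (by positivity)
  obtain ⟨K1, hK1⟩ := ranges ε1 (η' / 8) hε10 hε11 (by positivity)
  obtain ⟨K2, hK2⟩ := exists_nat_gt (4 / δ)
  refine ⟨2 * X0 + K1 + K2 + N1 + 3, fun K hK T hT0 hT => ?_⟩
  obtain ⟨t, ht⟩ : ∃ t : ℕ, t = Nat.sqrt K := ⟨_, rfl⟩
  obtain ⟨r1, r2, r3⟩ := hK1 K (by omega) t ht
  have hKR : (3 : ℝ) ≤ K := by exact_mod_cast (by omega : 3 ≤ K)
  have htK : t ^ 2 ≤ K := by rw [ht]; exact Nat.sqrt_le' K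
  have hT' : ∀ N ∈ T, (K : ℝ) ^ (9 / 8 : ℝ) ≤ N ∧ (N : ℝ) ≤ (K : ℝ) ^ (2 - ε1) := fun N hN =>
    ⟨(hT N hN).1, (hT N hN).2.trans (Real.rpow_le_rpow_of_exponent_le (by linarith) (by linarith))⟩
  have hKN : ∀ N ∈ T, K ≤ N := by
    intro N hN
    have h1 : (K : ℝ) ≤ (K : ℝ) ^ (9 / 8 : ℝ) := by
      nth_rewrite 1 [← Real.rpow_one (K : ℝ)]
      exact Real.rpow_le_rpow_of_exponent_le (by linarith) (by norm_num)
    exact_mod_cast h1.trans (hT N hN).1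
  have htN : ∀ N ∈ T, t ≤ N := by
    intro N hN
    have h1 : t ≤ t ^ 2 := Nat.le_self_pow (by norm_num) t
    exact (h1.trans htK).trans (hKN N hN)
  have hX0t : X0 ≤ t ^ 2 := by
    have h1 : (X0 : ℝ) ≤ (t : ℝ) ^ 2 := by
      have : (2 * X0 : ℝ) ≤ K := by exact_mod_cast (by omega : 2 * X0 ≤ K)
      linarith
    exact_mod_cast h1
  have hinjT : Set.InjOn (fun N : ℕ => N - t) T := by
    intro x hx y hy hxy
    simp only at hxy
    have := htN x hx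
    have := htN y hy
    omega
  have h1 := hX0 (t ^ 2) hX0t (2 * t) (by push_cast; nlinarith) (T.image (fun N => N - t)) (hT0.image _) (by
    intro M hM
    rw [mem_image] at hM
    obtain ⟨N, hN, rfl⟩ := hM
    obtain ⟨-, q2, q3⟩ := r3 N (hT' N hN).1 (hT' N hN).2
    refine ⟨q2, q3.trans (le_of_eq ?_)⟩
    rfl)
  have hcard : #(T.image (fun N : ℕ => N - t)) = #T := card_image_of_injOn hinjT
  rw [hcard] at h1
  obtain ⟨A, hA⟩ : ∃ A : Finset ℕ, A = (Icc 1 (t ^ 2)).filter (fun c : ℕ => δ * #T ≤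
      (#((T.image (fun N : ℕ => N - t)).filter (fun N => GoodC 1 (2 * t) (η' / 2) N c)) : ℝ)) := ⟨_, rfl⟩
  obtain ⟨B, hB⟩ : ∃ B : Finset ℕ, B = (Icc 1 K).filter (fun k : ℕ => min δ 1 / 4 * #T ≤
      (#(T.filter (fun N => LB η k N)) : ℝ)) := ⟨_, rfl⟩
  rw [← hA] at h1
  rw [← hB]
  have hAB : #A ≤ #B + 1 := by
    have hsub : A.image (fun c => t ^ 2 - c) ⊆ B ∪ {0} := by
      intro k hk
      rw [mem_image] at hk
      obtain ⟨c, hc, rfl⟩ := hk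
      rw [hA, mem_filter, mem_Icc] at hc
      rw [mem_union, mem_singleton]
      by_cases h0 : t ^ 2 - c = 0
      · exact Or.inr h0
      · left
        rw [hB, mem_filter, mem_Icc]
        refine ⟨⟨by omega, by omega⟩, ?_⟩
        have h2 : (T.image (fun N : ℕ => N - t)).filter (fun N => GoodC 1 (2 * t) (η' / 2) N c) ⊆
            (T.filter (fun N => LB η (t ^ 2 - c) N)).image (fun N : ℕ => N - t) := by
          intro M hM
          rw [mem_filter, mem_image] at hM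
          obtain ⟨⟨N, hN, rfl⟩, hg⟩ := hM
          rw [mem_image]
          refine ⟨N, ?_, rfl⟩
          rw [mem_filter]
          have hKN' := hKN N hN
          refine ⟨hN, LB.mono (by omega) hη2 (hN1 N (by omega) t c (t ^ 2 - c) r1 ?_ (by omega) hg)⟩
          exact (r3 N (hT' N hN).1 (hT' N hN).2).1
        have h3 := (card_le_card h2).trans card_image_le
        have h4 : (#((T.image (fun N : ℕ => N - t)).filter (fun N => GoodC 1 (2 * t) (η' / 2) N c)) : ℝ) ≤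
            #(T.filter (fun N => LB η (t ^ 2 - c) N)) := by exact_mod_cast h3
        have h5 : min δ 1 / 4 * #T ≤ δ * (#T : ℝ) := by
          have h6 : min δ 1 / 4 ≤ δ := by
            have := min_le_left δ 1
            linarith
          gcongr
        linarith [hc.2]
    have hinj : Set.InjOn (fun c => t ^ 2 - c) A := by
      intro x hx y hy hxy
      rw [hA, Finset.mem_coe, mem_filter, mem_Icc] at hx hy
      simp only at hxy
      omega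
    calc #A = #(A.image (fun c => t ^ 2 - c)) := (card_image_of_injOn hinj).symm
      _ ≤ #(B ∪ {0}) := card_le_card hsub
      _ ≤ #B + 1 := by
          refine (card_union_le _ _).trans ?_
          rw [card_singleton]
  have h2 : (#A : ℝ) ≤ #B + 1 := by exact_mod_cast hAB
  push_cast at h1
  have h3 : 4 / δ ≤ K := by
    have : (K2 : ℝ) ≤ K := by exact_mod_cast (by omega : K2 ≤ K)
    linarith
  rw [div_le_iff₀ hδ] at h3
  have h4 : min δ 1 / 4 * K ≤ δ / 4 * K := by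
    have := min_le_left δ 1
    gcongr
  have h5 : δ * (K / 2) ≤ δ * (t : ℝ) ^ 2 := by gcongr
  linarith

end Run7.h545.EP.Neg
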