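import Mathlib
import Pool.Agent.Run7.h545.EP.Gen

/-!
# Prime differences of consecutive values of the cubic polynomials `x³ + u x² + v x`
-/

set_option autoImplicit false

namespace Run7.h545.EP.Cub

open Finset Filter Topology
open Pool.Agent.N792
open Run7.h545.HP (GoodC)

/-- the cubic polynomial -/
def G (u v x : ℤ) : ℤ := x ^ 3 + u * x ^ 2 + v * x

/-- the number of the prime differences -/
def count (u v : ℤ) (N : ℕ) : ℕ := #((Icc 1 N).filter (fun k : ℕ => (G u v (k + 1) - G u v k).toNat.Prime))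

/-- the partial products -/
noncomputable def Cy (u v : ℤ) (y : ℕ) : ℝ :=
  ∏ p ∈ (Icc 5 y).filter Nat.Prime, (1 - (jacobiSym (4 * u ^ 2 - 12 * v - 3) p : ℝ) / ((p : ℝ) - 1))

open Classical in
/-- the factor of the prime three -/
noncomputable def three (u : ℤ) : ℝ := if (3 : ℤ) ∣ u then 3 / 2 else 1

/-- the lower bound -/
def LB (η : ℝ) (u v : ℤ) (N : ℕ) : Prop :=
  ∃ C : ℝ, 0 < C ∧ Tendsto (fun y => Cy u v y) atTop (𝓝 C) ∧ (1 - η) * (three u * C * (N / Real.log N)) ≤ count u v N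

lemma partialC_eq (u v : ℤ) (y : ℕ) : partialC 3 (3 + 2 * u) (1 + u + v) y = Cy u v y := by
  unfold partialC Cy
  have h1 : (Icc 3 y).filter (fun p : ℕ => p.Prime ∧ ¬ (p : ℤ) ∣ 3) = (Icc 5 y).filter Nat.Prime := by
    ext p
    simp only [mem_filter, mem_Icc]
    constructor
    · rintro ⟨⟨h1, h2⟩, h3, h4⟩
      have h5 : p ≠ 3 := by
        rintro rfl
        exact h4 (by norm_num)
      have h6 : p ≠ 4 := by
        rintro rfl
        norm_num at h3
      exact ⟨⟨by omega, h2⟩, h3⟩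
    · rintro ⟨⟨h1, h2⟩, h3⟩
      refine ⟨⟨by omega, h2⟩, h3, fun hd => ?_⟩
      have := Int.le_of_dvd (by norm_num) hd
      omega
  rw [h1]
  refine prod_congr rfl fun p _ => ?_
  have h2 : ((3 + 2 * u) ^ 2 - 4 * 3 * (1 + u + v)) = 4 * u ^ 2 - 12 * v - 3 := by ring
  rw [h2]

lemma eps_eq (u : ℤ) : eps 3 (3 + 2 * u) = 2 := by
  unfold eps
  rw [if_pos]
  exact ⟨3 + u, by ring⟩

lemma gcdProd_eq (u : ℤ) : gcdProd 3 (3 + 2 * u) = three u := by
  unfold gcdProd three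
  split_ifs with h
  · have h1 : Int.gcd 3 (3 + 2 * u) = 3 := by
      apply Nat.dvd_antisymm
      · have := Int.gcd_dvd_natAbs_left 3 (3 + 2 * u)
        simpa using this
      · have h5 : (3 : ℤ) ∣ ((Int.gcd 3 (3 + 2 * u) : ℕ) : ℤ) := by
          apply Int.dvd_coe_gcd (dvd_refl 3)
          obtain ⟨k, rfl⟩ := h
          exact ⟨1 + 2 * k, by ring⟩
        exact_mod_cast h5
    rw [h1]
    have h2 : (3 : ℕ).primeFactors = {3} := Nat.Prime.primeFactors Nat.prime_three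
    rw [h2, filter_singleton, if_pos (by norm_num), prod_singleton]
    norm_num
  · have h1 : Int.gcd 3 (3 + 2 * u) = 1 := by
      have h3 : Int.gcd 3 (3 + 2 * u) ∣ 3 := by
        have := Int.gcd_dvd_natAbs_left 3 (3 + 2 * u)
        simpa using this
      rcases (Nat.dvd_prime Nat.prime_three).1 h3 with h4 | h4
      · exact h4
      · exfalso
        apply h
        have h5 : ((Int.gcd 3 (3 + 2 * u) : ℕ) : ℤ) ∣ 3 + 2 * u := Int.gcd_dvd_right _ _
        rw [h4] at h5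
        push_cast at h5
        omega
    rw [h1]
    simp

/-- transfer -/
lemma lb_of {η : ℝ} {u v : ℤ} {N c : ℕ} (hc : (c : ℤ) = 1 + u + v) (h : GoodC 3 (3 + 2 * u) η N c) :
    LB η u v N := by
  obtain ⟨-, S, hS0, hS1, hS2⟩ := h
  rw [hc] at hS1 hS2
  refine ⟨S, hS0, ?_, ?_⟩
  · refine hS1.congr fun y => ?_
    exact partialC_eq u v y
  · rw [eps_eq, gcdProd_eq] at hS2
    have e1 : (Run7.h545.HP.PP 3 (3 + 2 * u) (1 + u + v) N : ℝ) = count u v N := by
      unfold Run7.h545.HP.PP count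
      congr 2
      apply filter_congr
      intro k _
      have : fv 3 (3 + 2 * u) (1 + u + v) k = G u v (k + 1) - G u v k := by
        unfold fv G
        ring
      rw [this]
    rw [e1] at hS2
    refine le_trans (le_of_eq ?_) hS2
    field_simp

lemma LB.mono {η η' : ℝ} {u v : ℤ} {N : ℕ} (h : η' ≤ η) (hg : LB η' u v N) : LB η u v N := by
  obtain ⟨S, h1, h2, h3⟩ := hg
  refine ⟨S, h1, h2, le_trans ?_ h3⟩
  apply mul_le_mul_of_nonneg_right (by linarith)
  have e1 : 0 < three u := by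
    unfold three
    split_ifs <;> norm_num
  have e2 : 0 ≤ (N : ℝ) / Real.log N := div_nonneg (Nat.cast_nonneg _) (Real.log_natCast_nonneg _)
  positivity

open Classical in
theorem cubic (η : ℝ) (hη : 0 < η) :
    ∃ δ : ℝ, 0 < δ ∧ ∀ ε : ℝ, 0 < ε → ∃ X0 : ℕ, ∀ X : ℕ, X0 ≤ X → ∀ u : ℤ, u ^ 2 ≤ X →
      ∀ T : Finset ℕ, T.Nonempty → (∀ N ∈ T, (X : ℝ) ^ (10 / 9 : ℝ) ≤ N ∧ (N : ℝ) ≤ (X : ℝ) ^ (2 - ε)) →
      δ * X ≤ (#((Icc (1 : ℤ) X).filter (fun v : ℤ => δ * #T ≤ (#(T.filter (fun N => LB η u v N)) : ℝ))) : ℝ) := by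
  obtain ⟨η', hη'⟩ : ∃ η' : ℝ, η' = min η (1 / 2) := ⟨_, rfl⟩
  have hη0 : 0 < η' := by rw [hη']; exact lt_min hη (by norm_num)
  have hη1 : η' ≤ 1 / 2 := by rw [hη']; exact min_le_right _ _
  have hη2 : η' ≤ η := by rw [hη']; exact min_le_left _ _
  obtain ⟨c, hc, hm⟩ := Run7.h545.EP.many 3 (by norm_num) 26 (by norm_num) η' hη0 hη1
  refine ⟨c / 2, by positivity, fun ε hε => ?_⟩
  obtain ⟨X0, hX0⟩ := hm ε hε
  obtain ⟨X1, hX1⟩ := exists_nat_gt ((8 / c) ^ 2)
  refine ⟨X0 + X1 + 4, fun X hX u hu T hT0 hT => ?_⟩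
  have hXR : (4 : ℝ) ≤ X := by exact_mod_cast (by omega : 4 ≤ X)
  have huR : (u : ℝ) ^ 2 ≤ X := by exact_mod_cast hu
  have h1 := hX0 X (by omega) (3 + 2 * u) (by
    push_cast
    nlinarith [sq_nonneg ((u : ℝ) - 1), sq_nonneg ((u : ℝ) - 3)]) T hT0 hT
  -- the absolute value of u
  obtain ⟨w, hw⟩ : ∃ w : ℕ, w = u.natAbs := ⟨_, rfl⟩
  have hwu : |u| = w := by rw [hw]; exact (Int.natCast_natAbs u).symm
  have hw2 : (w : ℝ) ^ 2 ≤ X := by
    have : (w : ℤ) ^ 2 ≤ X := by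
      rw [← hwu, sq_abs]
      exact hu
    exact_mod_cast this
  have hloss : (2 * w + 2 : ℝ) ≤ c / 2 * X := by
    have hs : 0 ≤ √(X : ℝ) := Real.sqrt_nonneg _
    have hss : √(X : ℝ) * √(X : ℝ) = X := Real.mul_self_sqrt (by linarith)
    have h2 : (w : ℝ) ≤ √(X : ℝ) := Real.le_sqrt_of_sq_le hw2
    have h3 : (1 : ℝ) ≤ √(X : ℝ) := by
      rw [← Real.sqrt_one]
      exact Real.sqrt_le_sqrt (by linarith)
    have h4 : 8 / c ≤ √(X : ℝ) := by
      have h5 : (8 / c) ^ 2 ≤ X := by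
        have : (X1 : ℝ) ≤ X := by exact_mod_cast (by omega : X1 ≤ X)
        linarith
      exact Real.le_sqrt_of_sq_le h5
    rw [div_le_iff₀ hc] at h4
    have h5 : 8 * √(X : ℝ) ≤ √(X : ℝ) * c * √(X : ℝ) := by gcongr
    have h6 : √(X : ℝ) * c * √(X : ℝ) = c * X := by rw [mul_right_comm, hss]; ring
    linarith
  -- the sets
  obtain ⟨A, hA⟩ : ∃ A : Finset ℕ, A = (Icc 1 X).filter
    (fun c' : ℕ => c * #T ≤ (#(T.filter (fun N => GoodC 3 (3 + 2 * u) η' N c')) : ℝ)) := ⟨_, rfl⟩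
  obtain ⟨B, hB⟩ : ∃ B : Finset ℤ, B = (Icc (1 : ℤ) X).filter
    (fun v : ℤ => c / 2 * #T ≤ (#(T.filter (fun N => LB η u v N)) : ℝ)) := ⟨_, rfl⟩
  rw [← hA] at h1
  rw [← hB]
  have hAB : #A ≤ #B + (2 * w + 2) := by
    have hsub : A.image (fun c' : ℕ => (c' : ℤ) - 1 - u) ⊆ B ∪ (Icc (-(w : ℤ)) 0 ∪ Icc ((X : ℤ) + 1) (X + w)) := by
      intro v hv
      rw [mem_image] at hv
      obtain ⟨c', hc', rfl⟩ := hv
      rw [hA, mem_filter, mem_Icc] at hc'
      rw [mem_union, mem_union, mem_Icc, mem_Icc]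
      have hul : -(w : ℤ) ≤ u := by rw [← hwu]; exact neg_abs_le u
      have huu : u ≤ w := by rw [← hwu]; exact le_abs_self u
      by_cases h2 : (c' : ℤ) - 1 - u ≤ 0
      · right; left
        constructor <;> omega
      · by_cases h3 : (X : ℤ) + 1 ≤ (c' : ℤ) - 1 - u
        · right; right
          constructor <;> omega
        · left
          rw [hB, mem_filter, mem_Icc]
          refine ⟨⟨by omega, by omega⟩, ?_⟩
          have h4 : (#(T.filter (fun N => GoodC 3 (3 + 2 * u) η' N c')) : ℝ) ≤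
              #(T.filter (fun N => LB η u ((c' : ℤ) - 1 - u) N)) := by
            have : #(T.filter (fun N => GoodC 3 (3 + 2 * u) η' N c')) ≤
                #(T.filter (fun N => LB η u ((c' : ℤ) - 1 - u) N)) := by
              apply card_le_card
              intro N hN
              rw [mem_filter] at hN ⊢
              exact ⟨hN.1, (lb_of (by ring) hN.2).mono hη2⟩
            exact_mod_cast this
          have h5 : c / 2 * #T ≤ c * #T := by
            have : (0 : ℝ) ≤ c * #T := by positivity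
            linarith
          linarith [hc'.2]
    have hinj : Set.InjOn (fun c' : ℕ => (c' : ℤ) - 1 - u) A := by
      intro x _ y _ hxy
      simp only at hxy
      omega
    calc #A = #(A.image (fun c' : ℕ => (c' : ℤ) - 1 - u)) := (card_image_of_injOn hinj).symm
      _ ≤ #(B ∪ (Icc (-(w : ℤ)) 0 ∪ Icc ((X : ℤ) + 1) (X + w))) := card_le_card hsub
      _ ≤ #B + (#(Icc (-(w : ℤ)) 0) + #(Icc ((X : ℤ) + 1) (X + w))) := by
          refine (card_union_le _ _).trans ?_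
          have := card_union_le (Icc (-(w : ℤ)) 0) (Icc ((X : ℤ) + 1) (X + w))
          omega
      _ ≤ _ := by
          rw [Int.card_Icc, Int.card_Icc]
          omega
  have h2 : (#A : ℝ) ≤ #B + (2 * w + 2) := by exact_mod_cast hAB
  linarith

end Run7.h545.EP.Cub
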