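import Mathlib
import Pool.Agent.Run7.h545.HP.Fin
import Pool.Agent.N511.LL.K0

/-!
# The predicted number of primes `x² + x + A` for a positive proportion of the odd `A ≤ X`, lengths up to `X^(2-ε)`
-/

set_option autoImplicit false

namespace Run7.h545.EP

open Finset Filter Topology
open Pool.Agent.N792
open Pool.Agent.N511.LL (PA LA CA)
open Run7.h545.HP (GoodC)

/-- the lower bound of the conjecture for one `A` -/
def GoodA (η : ℝ) (N A : ℕ) : Prop :=
  ∃ S : ℝ, 0 < S ∧ Tendsto (fun y => CA A y) atTop (𝓝 S) ∧ (1 - η) * (S * LA A N) ≤ PA A N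

lemma partialC_eq (A y : ℕ) : partialC 1 1 (A : ℤ) y = CA A y := by
  unfold partialC CA
  have h1 : (Icc 3 y).filter (fun p : ℕ => p.Prime ∧ ¬ (p : ℤ) ∣ 1) = (Icc 3 y).filter Nat.Prime := by
    ext p
    simp only [mem_filter, mem_Icc]
    constructor
    · intro h
      exact ⟨h.1, h.2.1⟩
    · intro h
      refine ⟨h.1, h.2, fun hd => ?_⟩
      have h2 := Int.eq_one_of_dvd_one (Int.natCast_nonneg p) hd
      have h3 : p = 1 := by exact_mod_cast h2
      exact h.2.one_lt.ne' h3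
  rw [h1]
  refine prod_congr rfl fun p _ => ?_
  have h2 : ((1 : ℤ) ^ 2 - 4 * 1 * (A : ℤ)) = 1 - 4 * (A : ℤ) := by ring
  rw [h2]

lemma PP_le_PA (A N : ℕ) : (Run7.h545.HP.PP 1 1 (A : ℤ) N : ℝ) ≤ PA A N := by
  unfold Run7.h545.HP.PP PA
  have h : #((Icc 1 N).filter (fun n : ℕ => (fv 1 1 (A : ℤ) n).toNat.Prime)) ≤
      #((range (N + 1)).filter (fun x : ℕ => (x ^ 2 + x + A).Prime)) := by
    apply card_le_card
    intro n hn
    rw [mem_filter, mem_Icc] at hn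
    rw [mem_filter, mem_range]
    refine ⟨by omega, ?_⟩
    have h1 : (fv 1 1 (A : ℤ) n).toNat = n ^ 2 + n + A := by
      unfold fv
      have : (1 * (n : ℤ) ^ 2 + 1 * (n : ℤ) + (A : ℤ)) = ((n ^ 2 + n + A : ℕ) : ℤ) := by push_cast; ring
      rw [this, Int.toNat_natCast]
    rw [← h1]
    exact hn.2
  exact_mod_cast h

lemma odd_of_adm (A : ℕ) (h : Admissible 1 1 (A : ℤ)) : Odd A := by
  rw [← Nat.not_even_iff_odd]
  intro he
  apply h.2.2.1
  refine ⟨by norm_num, ?_⟩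
  exact_mod_cast even_iff_two_dvd.1 he

lemma eps_one : eps 1 1 = 2 := by
  unfold eps
  norm_num

lemma gcdProd_one : gcdProd 1 1 = 1 := by
  unfold gcdProd
  simp

/-- transfer -/
lemma good_of (η : ℝ) (hη : 0 < η) (hη1 : η ≤ 1) : ∃ N0 : ℕ, ∀ N : ℕ, N0 ≤ N → ∀ A : ℕ, 3 ≤ A → A ≤ N →
    GoodC 1 1 (η / 2) N A → GoodA η N A := by
  obtain ⟨N0, hN0⟩ := Pool.Agent.N511.LL.KK.LA_est 0 1 (η / 2) one_pos (by positivity)
  refine ⟨N0 + 3, fun N hN A hA hAN hg => ?_⟩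
  obtain ⟨-, S, hS0, hS1, hS2⟩ := hg
  refine ⟨S, hS0, ?_, ?_⟩
  · refine hS1.congr fun y => ?_
    exact partialC_eq A y
  · have h1 := hN0 N (by omega) A N hA (by omega) (by linarith) le_rfl
    rw [Nat.mul_zero, Nat.add_zero] at h1
    have h2 := (abs_le.1 h1).2
    rw [eps_one, gcdProd_one] at hS2
    have hN3 : (3 : ℝ) ≤ N := by exact_mod_cast (by omega : 3 ≤ N)
    have hL : 0 < Real.log N := Real.log_pos (by linarith)
    have hNL : 0 ≤ (N : ℝ) / Real.log N := by positivity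
    refine le_trans ?_ (hS2.trans (PP_le_PA A N))
    have e1 : (1 - η / 2) * (2 * S * 1) * ((N : ℝ) / (2 * Real.log N)) = (1 - η / 2) * (S * (N / Real.log N)) := by
      field_simp
    rw [e1]
    have h3 : LA A N ≤ (1 + η / 2) * (N / Real.log N) := by linarith
    have h4 : (1 - η) * (S * LA A N) ≤ (1 - η) * (S * ((1 + η / 2) * (N / Real.log N))) := by
      have : 0 ≤ 1 - η := by linarith
      gcongr
    refine h4.trans ?_
    have h5 : (1 - η) * (1 + η / 2) ≤ 1 - η / 2 := by nlinarith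
    calc (1 - η) * (S * ((1 + η / 2) * (N / Real.log N))) = ((1 - η) * (1 + η / 2)) * (S * (N / Real.log N)) := by ring
      _ ≤ (1 - η / 2) * (S * (N / Real.log N)) := by gcongr

open Classical in
/-- for one length -/
theorem one_length (η : ℝ) (hη : 0 < η) :
    ∃ δ : ℝ, 0 < δ ∧ ∀ ε : ℝ, 0 < ε → ∃ X0 : ℕ, ∀ X : ℕ, X0 ≤ X → ∀ N : ℕ, (X : ℝ) ^ (10 / 9 : ℝ) ≤ N →
      (N : ℝ) ≤ (X : ℝ) ^ (2 - ε) → δ * X ≤ (#((Icc 3 X).filter (fun A => Odd A ∧ GoodA η N A)) : ℝ) := by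
  obtain ⟨η', hη'⟩ : ∃ η' : ℝ, η' = min η 1 := ⟨_, rfl⟩
  have hη0 : 0 < η' := by rw [hη']; exact lt_min hη one_pos
  have hη1 : η' ≤ 1 := by rw [hη']; exact min_le_right _ _
  have hη2 : η' ≤ η := by rw [hη']; exact min_le_left _ _
  obtain ⟨c, hc, hfam⟩ := Run7.h545.HP.family 1 one_pos 1 le_rfl (η' / 2) (by positivity) (by linarith)
  obtain ⟨N1, hN1⟩ := good_of η' hη0 hη1
  refine ⟨c / 2, by positivity, fun ε hε => ?_⟩
  obtain ⟨ε1, hε1⟩ : ∃ ε1 : ℝ, ε1 = min ε 1 := ⟨_, rfl⟩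
  have hε10 : 0 < ε1 := by rw [hε1]; exact lt_min hε one_pos
  have hε11 : ε1 ≤ 1 := by rw [hε1]; exact min_le_right _ _
  have hε12 : ε1 ≤ ε := by rw [hε1]; exact min_le_left _ _
  obtain ⟨N0, hfam⟩ := hfam (ε1 / 8) (by positivity)
  obtain ⟨X1, hX1⟩ := exists_nat_gt (4 / c)
  refine ⟨N0 + N1 + X1 + 3, fun X hX N hNX hNX2 => ?_⟩
  have hXR : (3 : ℝ) ≤ X := by exact_mod_cast (by omega : 3 ≤ X)
  have hX0 : (0 : ℝ) < X := by linarith
  have hXN : X ≤ N := by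
    have h1 : (X : ℝ) ≤ (X : ℝ) ^ (10 / 9 : ℝ) := by
      nth_rewrite 1 [← Real.rpow_one (X : ℝ)]
      exact Real.rpow_le_rpow_of_exponent_le (by linarith) (by norm_num)
    exact_mod_cast h1.trans hNX
  have hXNr : (X : ℝ) ≤ N := by exact_mod_cast hXN
  have hN0' : (0 : ℝ) < N := by linarith
  have hup : (X : ℝ) ≤ (N : ℝ) ^ (9 / 10 : ℝ) := by
    have h1 : ((X : ℝ) ^ (10 / 9 : ℝ)) ^ (9 / 10 : ℝ) ≤ (N : ℝ) ^ (9 / 10 : ℝ) :=
      Real.rpow_le_rpow (by positivity) hNX (by norm_num)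
    rw [← Real.rpow_mul hX0.le] at h1
    norm_num at h1
    exact h1
  have hlo : (N : ℝ) ^ (1 / 2 + ε1 / 8) ≤ X := by
    have h1 : (N : ℝ) ≤ (X : ℝ) ^ (2 - ε1) :=
      hNX2.trans (Real.rpow_le_rpow_of_exponent_le (by linarith) (by linarith))
    have h2 : (N : ℝ) ^ (1 / 2 + ε1 / 8) ≤ ((X : ℝ) ^ (2 - ε1)) ^ (1 / 2 + ε1 / 8) :=
      Real.rpow_le_rpow hN0'.le h1 (by positivity)
    rw [← Real.rpow_mul hX0.le] at h2
    refine h2.trans ?_
    nth_rewrite 2 [← Real.rpow_one (X : ℝ)]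
    apply Real.rpow_le_rpow_of_exponent_le (by linarith)
    nlinarith
  have h1 := hfam N (by omega) 1 X (by push_cast; linarith) hlo hup
  have hsub : #((Icc 1 X).filter (fun c : ℕ => GoodC 1 1 (η' / 2) N c)) ≤
      #((Icc 3 X).filter (fun A => Odd A ∧ GoodA η N A)) + 1 := by
    have h2 : (Icc 1 X).filter (fun c : ℕ => GoodC 1 1 (η' / 2) N c) ⊆
        (Icc 3 X).filter (fun A => Odd A ∧ GoodA η N A) ∪ {1} := by
      intro A hA
      rw [mem_filter, mem_Icc] at hA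
      rw [mem_union, mem_filter, mem_Icc, mem_singleton]
      have hodd := odd_of_adm A hA.2.1
      by_cases h3 : A = 1
      · exact Or.inr h3
      · left
        have h4 : 3 ≤ A := by
          obtain ⟨k, hk⟩ := hodd
          omega
        refine ⟨⟨h4, hA.1.2⟩, hodd, ?_⟩
        obtain ⟨S, hS0, hS1, hS2⟩ := hN1 N (by omega) A h4 (hA.1.2.trans hXN) hA.2
        refine ⟨S, hS0, hS1, le_trans ?_ hS2⟩
        have hLA : 0 ≤ LA A N := by
          unfold LA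
          have : 0 ≤ ∫ x in (0 : ℝ)..N, 1 / Real.log (x ^ 2 + x + A) := by
            apply intervalIntegral.integral_nonneg (Nat.cast_nonneg N)
            intro x hx
            have h5 : (3 : ℝ) ≤ A := by exact_mod_cast h4
            have h6 : 0 ≤ Real.log (x ^ 2 + x + A) := Real.log_nonneg (by nlinarith [hx.1])
            positivity
          linarith
        gcongr
    calc _ ≤ #((Icc 3 X).filter (fun A => Odd A ∧ GoodA η N A) ∪ {1}) := card_le_card h2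
      _ ≤ _ := by
          refine (card_union_le _ _).trans ?_
          rw [card_singleton]
  have h3 : c * X ≤ (#((Icc 3 X).filter (fun A => Odd A ∧ GoodA η N A)) : ℝ) + 1 := by
    refine h1.trans ?_
    exact_mod_cast hsub
  have h4 : 4 / c ≤ X := by
    have : (X1 : ℝ) ≤ X := by exact_mod_cast (by omega : X1 ≤ X)
    linarith
  rw [div_le_iff₀ hc] at h4
  linarith

open Classical in
/-- for a set of lengths at once -/
theorem many_lengths (η : ℝ) (hη : 0 < η) :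
    ∃ δ : ℝ, 0 < δ ∧ ∀ ε : ℝ, 0 < ε → ∃ X0 : ℕ, ∀ X : ℕ, X0 ≤ X → ∀ T : Finset ℕ, T.Nonempty →
      (∀ N ∈ T, (X : ℝ) ^ (10 / 9 : ℝ) ≤ N ∧ (N : ℝ) ≤ (X : ℝ) ^ (2 - ε)) →
      δ * X ≤ (#((Icc 3 X).filter (fun A => Odd A ∧ δ * #T ≤ (#(T.filter (fun N => GoodA η N A)) : ℝ))) : ℝ) := by
  obtain ⟨c, hc, h⟩ := one_length η hη
  refine ⟨c / 2, by positivity, fun ε hε => ?_⟩
  obtain ⟨X0, hX0⟩ := h ε hε
  refine ⟨X0, fun X hX T hT0 hT => ?_⟩
  obtain ⟨O, hO⟩ : ∃ O : Finset ℕ, O = (Icc 3 X).filter (fun A => Odd A) := ⟨_, rfl⟩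
  obtain ⟨G, hG⟩ : ∃ G : Finset ℕ, G = (Icc 3 X).filter
    (fun A => Odd A ∧ c / 2 * #T ≤ (#(T.filter (fun N => GoodA η N A)) : ℝ)) := ⟨_, rfl⟩
  rw [← hG]
  have hOX : (#O : ℝ) ≤ X := by
    have h1 : #O ≤ #(Icc 3 X) := by rw [hO]; exact card_filter_le _ _
    have h2 : #(Icc 3 X) ≤ X := by rw [Nat.card_Icc]; omega
    exact_mod_cast h1.trans h2
  -- double counting
  have h1 : ∑ N ∈ T, (#((Icc 3 X).filter (fun A => Odd A ∧ GoodA η N A)) : ℝ) =
      ∑ A ∈ O, (#(T.filter (fun N => GoodA η N A)) : ℝ) := by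
    have e1 : ∀ N, (#((Icc 3 X).filter (fun A => Odd A ∧ GoodA η N A)) : ℝ) =
        ∑ A ∈ O, (if GoodA η N A then (1 : ℝ) else 0) := by
      intro N
      rw [hO, sum_boole, filter_filter]
    have e2 : ∀ A, (#(T.filter (fun N => GoodA η N A)) : ℝ) = ∑ N ∈ T, (if GoodA η N A then (1 : ℝ) else 0) := by
      intro A
      rw [sum_boole]
    simp only [e1, e2]
    exact sum_comm
  have h2 : (#T : ℝ) * (c * X) ≤ ∑ A ∈ O, (#(T.filter (fun N => GoodA η N A)) : ℝ) := by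
    rw [← h1, ← nsmul_eq_mul, ← sum_const]
    exact sum_le_sum fun N hN => hX0 X hX N (hT N hN).1 (hT N hN).2
  have hTp : (0 : ℝ) < #T := by exact_mod_cast card_pos.2 hT0
  have h3 : ∑ A ∈ O, (#(T.filter (fun N => GoodA η N A)) : ℝ) ≤ #G * #T + #O * (c / 2 * #T) := by
    have h4 : ∀ A ∈ O, (#(T.filter (fun N => GoodA η N A)) : ℝ) ≤ (if A ∈ G then (#T : ℝ) else 0) + c / 2 * #T := by
      intro A hA
      by_cases hAG : A ∈ G
      · rw [if_pos hAG]
        have h5 : (#(T.filter (fun N => GoodA η N A)) : ℝ) ≤ #T := by exact_mod_cast card_filter_le _ _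
        have : 0 ≤ c / 2 * #T := by positivity
        linarith
      · rw [if_neg hAG, zero_add]
        by_contra hcon
        push Not at hcon
        apply hAG
        rw [hG, mem_filter]
        rw [hO, mem_filter] at hA
        exact ⟨hA.1, hA.2, hcon.le⟩
    refine (sum_le_sum h4).trans ?_
    rw [sum_add_distrib, sum_const, nsmul_eq_mul, ← sum_filter, sum_const, nsmul_eq_mul]
    have h5 : (#(O.filter (fun A => A ∈ G)) : ℝ) ≤ #G := by
      have : #(O.filter (fun A => A ∈ G)) ≤ #G := by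
        apply card_le_card
        intro A hA
        exact (mem_filter.1 hA).2
      exact_mod_cast this
    gcongr
  have h4 : (#O : ℝ) * (c / 2 * #T) ≤ X * (c / 2 * #T) := by gcongr
  have h6 : (#T : ℝ) * (c / 2 * X) ≤ #T * #G := by nlinarith
  exact le_of_mul_le_mul_left h6 hTp

end Run7.h545.EP
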