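import Mathlib
import Pool.Agent.Run7.h545.EP.Gen
import Pool.Agent.Helper923.PNT

/-!
# The primes `k² + 3 k + c` compared with the primes up to `10 ^ n`
-/

set_option autoImplicit false

namespace Run7.h545.EP.Den

open Finset Filter Topology
open Pool.Agent.N792
open Run7.h545.HP (GoodC)

/-- the number of the `1 ≤ k ≤ 10 ^ n` with `k² + 3 k + c` prime -/
def a (c n : ℕ) : ℕ := #((Icc 1 (10 ^ n)).filter (fun k : ℕ => (k ^ 2 + 3 * k + c).Prime))

/-- the partial products -/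
noncomputable def Cy (c y : ℕ) : ℝ :=
  ∏ p ∈ (Icc 3 y).filter Nat.Prime, (1 - (jacobiSym (9 - 4 * (c : ℤ)) p : ℝ) / ((p : ℝ) - 1))

/-- the lower bound -/
def LB (η : ℝ) (c n : ℕ) : Prop :=
  ∃ L : ℝ, 0 < L ∧ Tendsto (fun y => Cy c y) atTop (𝓝 L) ∧ (1 - η) * (L * Nat.primeCounting (10 ^ n)) ≤ a c n

lemma partialC_eq (c y : ℕ) : partialC 1 3 (c : ℤ) y = Cy c y := by
  unfold partialC Cy
  have h1 : (Icc 3 y).filter (fun p : ℕ => p.Prime ∧ ¬ (p : ℤ) ∣ 1) = (Icc 3 y).filter Nat.Prime := by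
    ext p
    simp only [mem_filter, mem_Icc]
    constructor
    · intro h
      exact ⟨h.1, h.2.1⟩
    · intro h
      refine ⟨h.1, h.2, fun hd => ?_⟩
      have h2 := Int.eq_one_of_dvd_one (Int.natCast_nonneg p) hd
      have h3 : p = 1 := by exact_mod_cast h2
      exact h.2.one_lt.ne' h3
  rw [h1]
  refine prod_congr rfl fun p _ => ?_
  have h2 : ((3 : ℤ) ^ 2 - 4 * 1 * (c : ℤ)) = 9 - 4 * (c : ℤ) := by ring
  rw [h2]

lemma odd_of_adm (c : ℕ) (h : Admissible 1 3 (c : ℤ)) : Odd c := by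
  rw [← Nat.not_even_iff_odd]
  intro he
  apply h.2.2.1
  refine ⟨by norm_num, ?_⟩
  exact_mod_cast even_iff_two_dvd.1 he

lemma eps_eq : eps 1 3 = 2 := by
  unfold eps
  norm_num

lemma gcdProd_eq : gcdProd 1 3 = 1 := by
  unfold gcdProd
  simp

/-- the prime number theorem -/
lemma pnt (θ : ℝ) (hθ : 0 < θ) : ∃ N0 : ℕ, ∀ N : ℕ, N0 ≤ N →
    (Nat.primeCounting N : ℝ) ≤ (1 + θ) * (N / Real.log N) := by
  have h0 : Tendsto (fun n : ℕ => (n : ℝ)) atTop atTop := tendsto_natCast_atTop_atTop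
  have h1 := Pool.Agent.Helper923.PNT.pi_tendsto.comp h0
  have h2 := h1.eventually (eventually_le_nhds (show (1 : ℝ) < 1 + θ by linarith))
  obtain ⟨N0, hN0⟩ := eventually_atTop.1 h2
  refine ⟨N0 + 3, fun N hN => ?_⟩
  have h3 := hN0 N (by omega)
  simp only [Function.comp, Nat.floor_natCast] at h3
  have hN3 : (3 : ℝ) ≤ N := by exact_mod_cast (by omega : 3 ≤ N)
  have hL : 0 < Real.log N := Real.log_pos (by linarith)
  rw [div_le_iff₀ (by linarith)] at h3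
  rw [mul_div_assoc', le_div_iff₀ hL]
  exact h3

/-- transfer -/
lemma lb_of (η : ℝ) (hη : 0 < η) (hη1 : η ≤ 1) : ∃ N0 : ℕ, ∀ n : ℕ, N0 ≤ 10 ^ n → ∀ c : ℕ,
    GoodC 1 3 (η / 2) (10 ^ n) c → LB η c n := by
  obtain ⟨N0, hN0⟩ := pnt (η / 2) (by positivity)
  refine ⟨N0 + 3, fun n hn c hg => ?_⟩
  obtain ⟨-, S, hS0, hS1, hS2⟩ := hg
  refine ⟨S, hS0, ?_, ?_⟩
  · refine hS1.congr fun y => ?_
    exact partialC_eq c y
  · have h1 := hN0 (10 ^ n) (by omega)
    rw [eps_eq, gcdProd_eq] at hS2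
    obtain ⟨N, hN⟩ : ∃ N : ℕ, N = 10 ^ n := ⟨_, rfl⟩
    have e0 : (Run7.h545.HP.PP 1 3 (c : ℤ) (10 ^ n) : ℝ) = a c n := by
      unfold Run7.h545.HP.PP a
      congr 2
      apply filter_congr
      intro k _
      have : (fv 1 3 (c : ℤ) k).toNat = k ^ 2 + 3 * k + c := by
        unfold fv
        have : (1 * (k : ℤ) ^ 2 + 3 * (k : ℤ) + (c : ℤ)) = ((k ^ 2 + 3 * k + c : ℕ) : ℤ) := by push_cast; ring
        rw [this, Int.toNat_natCast]
      rw [this]
    rw [e0] at hS2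
    rw [← hN] at h1 hS2 ⊢
    have hN3 : (3 : ℝ) ≤ N := by
      have : 3 ≤ N := by omega
      exact_mod_cast this
    have hL : 0 < Real.log N := Real.log_pos (by linarith)
    have hNL : 0 ≤ (N : ℝ) / Real.log N := by positivity
    refine le_trans ?_ hS2
    have e1 : (1 - η / 2) * (2 * S * 1) * ((N : ℝ) / (2 * Real.log N)) = (1 - η / 2) * (S * (N / Real.log N)) := by
      field_simp
    rw [e1]
    have h4 : (1 - η) * (S * (Nat.primeCounting N : ℝ)) ≤ (1 - η) * (S * ((1 + η / 2) * (N / Real.log N))) := by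
      have : 0 ≤ 1 - η := by linarith
      gcongr
    refine h4.trans ?_
    have h5 : (1 - η) * (1 + η / 2) ≤ 1 - η / 2 := by nlinarith
    calc (1 - η) * (S * ((1 + η / 2) * (N / Real.log N))) = ((1 - η) * (1 + η / 2)) * (S * (N / Real.log N)) := by ring
      _ ≤ (1 - η / 2) * (S * (N / Real.log N)) := by gcongr

lemma LB.mono {η η' : ℝ} {c n : ℕ} (h : η' ≤ η) (hg : LB η' c n) : LB η c n := by
  obtain ⟨S, h1, h2, h3⟩ := hg
  refine ⟨S, h1, h2, le_trans ?_ h3⟩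
  apply mul_le_mul_of_nonneg_right (by linarith)
  positivity

open Classical in
theorem main (η : ℝ) (hη : 0 < η) :
    ∃ δ : ℝ, 0 < δ ∧ ∀ ε : ℝ, 0 < ε → ∃ X0 : ℕ, ∀ X : ℕ, X0 ≤ X →
      ∀ T : Finset ℕ, T.Nonempty → (∀ n ∈ T, (X : ℝ) ^ (10 / 9 : ℝ) ≤ 10 ^ n ∧ (10 : ℝ) ^ n ≤ (X : ℝ) ^ (2 - ε)) →
      δ * X ≤ (#((Icc 1 X).filter (fun c : ℕ => Odd c ∧ δ * #T ≤ (#(T.filter (fun n => LB η c n)) : ℝ))) : ℝ) := by
  obtain ⟨η', hη'⟩ : ∃ η' : ℝ, η' = min η 1 := ⟨_, rfl⟩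
  have hη0 : 0 < η' := by rw [hη']; exact lt_min hη one_pos
  have hη1 : η' ≤ 1 := by rw [hη']; exact min_le_right _ _
  have hη2 : η' ≤ η := by rw [hη']; exact min_le_left _ _
  obtain ⟨N1, hN1⟩ := lb_of η' hη0 hη1
  obtain ⟨δ, hδ, hm⟩ := Run7.h545.EP.many 1 one_pos 9 (by norm_num) (η' / 2) (by positivity) (by linarith)
  refine ⟨δ, hδ, fun ε hε => ?_⟩
  obtain ⟨X0, hX0⟩ := hm ε hε
  refine ⟨X0 + N1 + 3, fun X hX T hT0 hT => ?_⟩
  have hXR : (3 : ℝ) ≤ X := by exact_mod_cast (by omega : 3 ≤ X)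
  have hpinj : Function.Injective (fun n : ℕ => 10 ^ n) := Nat.pow_right_injective (by norm_num)
  have h1 := hX0 X (by omega) 3 (by push_cast; nlinarith) (T.image (fun n => 10 ^ n)) (hT0.image _) (by
    intro N hN
    rw [mem_image] at hN
    obtain ⟨n, hn, rfl⟩ := hN
    push_cast
    exact hT n hn)
  have hcard : #(T.image (fun n : ℕ => 10 ^ n)) = #T := card_image_of_injective _ hpinj
  rw [hcard] at h1
  refine h1.trans ?_
  have hsub : #((Icc 1 X).filter (fun c : ℕ => δ * #T ≤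
      (#((T.image (fun n : ℕ => 10 ^ n)).filter (fun N => GoodC 1 3 (η' / 2) N c)) : ℝ))) ≤
      #((Icc 1 X).filter (fun c : ℕ => Odd c ∧ δ * #T ≤ (#(T.filter (fun n => LB η c n)) : ℝ))) := by
    apply card_le_card
    intro c hc
    rw [mem_filter] at hc ⊢
    have hTp : (0 : ℝ) < #T := by exact_mod_cast card_pos.2 hT0
    have hpos : (0 : ℝ) < (#((T.image (fun n : ℕ => 10 ^ n)).filter (fun N => GoodC 1 3 (η' / 2) N c)) : ℝ) :=
      lt_of_lt_of_le (by positivity) hc.2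
    have hne : ((T.image (fun n : ℕ => 10 ^ n)).filter (fun N => GoodC 1 3 (η' / 2) N c)).Nonempty := by
      rw [← card_pos]
      exact_mod_cast hpos
    obtain ⟨N, hN⟩ := hne
    rw [mem_filter] at hN
    refine ⟨hc.1, odd_of_adm c hN.2.1, hc.2.trans ?_⟩
    have h2 : (T.image (fun n : ℕ => 10 ^ n)).filter (fun N => GoodC 1 3 (η' / 2) N c) ⊆
        (T.filter (fun n => LB η c n)).image (fun n : ℕ => 10 ^ n) := by
      intro N hN
      rw [mem_filter, mem_image] at hN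
      obtain ⟨⟨n, hn, rfl⟩, hg⟩ := hN
      rw [mem_image]
      refine ⟨n, ?_, rfl⟩
      rw [mem_filter]
      refine ⟨hn, (hN1 n ?_ c hg).mono hη2⟩
      have h3 : (X : ℝ) ≤ 10 ^ n := by
        have h4 : (X : ℝ) ≤ (X : ℝ) ^ (10 / 9 : ℝ) := by
          nth_rewrite 1 [← Real.rpow_one (X : ℝ)]
          exact Real.rpow_le_rpow_of_exponent_le (by linarith) (by norm_num)
        exact h4.trans (hT n hn).1
      have h5 : X ≤ 10 ^ n := by exact_mod_cast h3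
      omega
    have h3 := (card_le_card h2).trans card_image_le
    exact_mod_cast h3
  exact_mod_cast hsub

end Run7.h545.EP.Den
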